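import Pool.Agent.Helper81.LT.SurfA

/-!
Project LT (MP_b8862a_ag): two families of surfaces whose Hodge numbers are not exceptional: the double planes (branched
along a curve of degree `2 e`) and the elliptic surfaces over the projective line with a section.
-/

namespace LT

theorem choose_four63 (b : ℕ) : 24 * (b + 4).choose 4 = (b + 1) * (b + 2) * (b + 3) * (b + 4) := by
  have h1 := Nat.descFactorial_eq_factorial_mul_choose (b + 4) 4
  have h2 : (4 : ℕ).factorial = 24 := by decide
  rw [h2] at h1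
  rw [← h1]
  simp only [Nat.descFactorial_succ, Nat.descFactorial_zero]
  have e0 : b + 4 - 0 = b + 4 := by omega
  have e1 : b + 4 - 1 = b + 3 := by omega
  have e2 : b + 4 - 2 = b + 2 := by omega
  have e3 : b + 4 - 3 = b + 1 := by omega
  rw [e0, e1, e2, e3]
  ring

theorem choose_three63 (b : ℕ) : 6 * (b + 3).choose 3 = (b + 1) * (b + 2) * (b + 3) := by
  have h1 := Nat.descFactorial_eq_factorial_mul_choose (b + 3) 3
  have h2 : (3 : ℕ).factorial = 6 := by decide
  rw [h2] at h1
  rw [← h1]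
  simp only [Nat.descFactorial_succ, Nat.descFactorial_zero]
  have e0 : b + 3 - 0 = b + 3 := by omega
  have e1 : b + 3 - 1 = b + 2 := by omega
  have e2 : b + 3 - 2 = b + 1 := by omega
  rw [e0, e1, e2]
  ring

/-- the orthogonal case, `4 ≤ j` -/
private theorem core63 {s n a j : ℕ} (hB : n ≤ 14 * s + 8) (h8 : 8 * (j * (a - j)) < a * (a - 1))
    (hs : s ≤ 8 * (j * (a - j))) (hj : 4 ≤ j) (h2 : 2 * j ≤ a) (hc : a.choose j ≤ n) : False := by
  obtain ⟨b, rfl⟩ : ∃ b, a = b + 4 := ⟨a - 4, by omega⟩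
  have e1 : b + 4 - 1 = b + 3 := by omega
  rw [e1] at h8
  have h3 : 4 * b ≤ j * (b + 4 - j) := by
    obtain ⟨i, rfl⟩ : ∃ i, j = i + 4 := ⟨j - 4, by omega⟩
    obtain ⟨q, hq⟩ : ∃ q, b = i + q := ⟨b - i, by omega⟩
    have e2 : b + 4 - (i + 4) = q := by omega
    rw [e2, hq]
    have : 4 ≤ q := by omega
    nlinarith
  have h4 := (choose_mono81 hj h2).trans hc
  have h5 := choose_four63 b
  have hb : 25 ≤ b := by
    by_contra hcon
    push Not at hcon
    have h6 : 32 * b < (b + 4) * (b + 3) := by omega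
    have hb4 : 4 ≤ b := by omega
    interval_cases b <;> omega
  have h6 : (b + 1) * (b + 2) * (b + 3) * (b + 4) ≤ 24 * (14 * ((b + 4) * (b + 3)) + 8) := by
    rw [← h5]
    omega
  have h7 : 26 * 27 ≤ (b + 1) * (b + 2) := Nat.mul_le_mul (by omega) (by omega)
  have h8 : 26 * 27 * ((b + 3) * (b + 4)) ≤ (b + 1) * (b + 2) * ((b + 3) * (b + 4)) := Nat.mul_le_mul_right _ h7
  nlinarith

/-- the symplectic case -/
private theorem core2_63 {s n c j : ℕ} (hB : n ≤ 14 * s + 8) (h8 : 8 * (j * (c + 2 - j)) < (c + 1) * c)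
    (hs : s ≤ 8 * (j * (c + 2 - j))) (hj : 4 ≤ j) (h2 : 2 * j ≤ c) (hc : c.choose j ≤ n + c.choose (j - 2)) : False := by
  obtain ⟨b, rfl⟩ : ∃ b, c = b + 4 := ⟨c - 4, by omega⟩
  obtain ⟨i, rfl⟩ : ∃ i, j = i + 2 := ⟨j - 2, by omega⟩
  obtain ⟨q, hq⟩ : ∃ q, b + 4 = i + q := ⟨b + 4 - i, by omega⟩
  have e2 : b + 4 + 2 - (i + 2) = q := by omega
  have e3 : i + 2 - 2 = i := by omega
  rw [e2] at h8 hs
  rw [e3] at hc
  have h3 : 4 * (b + 2) ≤ (i + 2) * q := by
    obtain ⟨k, rfl⟩ : ∃ k, i = k + 2 := ⟨i - 2, by omega⟩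
    obtain ⟨u, rfl⟩ : ∃ u, q = u + 4 := ⟨q - 4, by omega⟩
    nlinarith
  have hb : 25 ≤ b := by
    by_contra hcon
    push Not at hcon
    have h6 : 32 * (b + 2) < (b + 4 + 1) * (b + 4) := by omega
    have hb4 : 4 ≤ b := by omega
    interval_cases b <;> omega
  -- `C(c, j - 2) ≤ C(c, j) / 4`
  have hcl : (b + 4).choose i * 4 ≤ (b + 4).choose (i + 2) := by
    have e1 := Nat.choose_succ_right_eq (b + 4) i
    have e2' := Nat.choose_succ_right_eq (b + 4) (i + 1)
    have f1 : b + 4 - i = q := by omega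
    have f2 : b + 4 - (i + 1) = q - 1 := by omega
    rw [f1] at e1
    rw [f2] at e2'
    obtain ⟨p, rfl⟩ : ∃ p, q = p + 1 := ⟨q - 1, by omega⟩
    rw [Nat.add_sub_cancel] at e2'
    have e4 : (b + 4).choose (i + 1 + 1) * ((i + 1 + 1) * (i + 1)) = (b + 4).choose i * ((p + 1) * p) := by
      calc (b + 4).choose (i + 1 + 1) * ((i + 1 + 1) * (i + 1)) = ((b + 4).choose (i + 1 + 1) * (i + 1 + 1)) * (i + 1) := by ring
        _ = ((b + 4).choose (i + 1) * (i + 1)) * p := by rw [e2']; ring
        _ = _ := by rw [e1]; ring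
    -- `8 (i + 2) (p + 1) < (i + p + 2) (i + p + 1)`, so `p + 1 ≥ 2 (i + 2)`
    have h9 : 2 * (i + 2) ≤ p := by
      by_contra hcon
      push Not at hcon
      have h10 : b + 4 = i + p + 1 := by omega
      rw [h10] at h8
      have h11 : (i + p + 1 + 1) * (i + p + 1) ≤ 8 * ((i + 2) * (p + 1)) := by
        have hi2 : 2 ≤ i := by omega
        have hip : i ≤ p := by omega
        nlinarith
      omega
    have e5 : (b + 4).choose i * 4 * ((i + 1 + 1) * (i + 1)) ≤ (b + 4).choose (i + 1 + 1) * ((i + 1 + 1) * (i + 1)) := by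
      rw [e4, mul_assoc]
      refine Nat.mul_le_mul_left _ ?_
      nlinarith
    exact Nat.le_of_mul_le_mul_right e5 (by positivity)
  have h4 : (b + 4).choose 4 ≤ (b + 4).choose (i + 2) := choose_mono81 (by omega) (by omega)
  have h5 := choose_four63 b
  have h6 : 3 * ((b + 1) * (b + 2) * (b + 3) * (b + 4)) ≤ 96 * (14 * ((b + 5) * (b + 4)) + 8) := by
    rw [← h5]
    have e6 : (b + 4 + 1) * (b + 4) = (b + 5) * (b + 4) := by ring
    rw [e6] at h8
    omega
  have h7 : 26 * 27 * 28 ≤ (b + 1) * (b + 2) * (b + 3) := Nat.mul_le_mul (Nat.mul_le_mul (by omega) (by omega)) (by omega)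
  obtain ⟨d, rfl⟩ : ∃ d, b = d + 25 := ⟨b - 25, by omega⟩
  nlinarith [Nat.zero_le (d ^ 4), Nat.zero_le (d ^ 3), Nat.zero_le (d ^ 2), Nat.zero_le d]

/-- the common part of the two families -/
private theorem not_exc63 {s h : ℕ} (hs : 2 ≤ s) (h6 : 6 * s < h) (hB : 2 * s + h ≤ 14 * s + 8)
    (hA : ∀ K Z : ℕ, 0 < Z → s * K = (2 * s + h) * Z → 8 * Z < K ∧ s ≤ 8 * Z)
    (hpow : ∀ d k : ℕ, 2 ≤ k → 2 * s + h = d ^ k → d ^ (k - 1) ∣ s → False)
    (hsq : ¬ IsSquare (2 * s + h + 1))
    (hlin2 : 2 * (2 * s + h) = s ^ 2 + 3 * s + 2 → False) (hlin0 : 2 * (2 * s + h) = s ^ 2 + 3 * s → False)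
    (hj3 : ∀ b : ℕ, s * ((b + 3) * (b + 2)) = (2 * s + h) * (3 * b) → 19 ≤ b → (b + 3).choose 3 ≤ 2 * s + h → False) :
    ¬ Exc s h := by
  -- all `j`
  have hcore : ∀ a j : ℕ, 3 ≤ j → 2 * j ≤ a → s * (a * (a - 1)) = (2 * s + h) * (j * (a - j)) →
      a.choose j ≤ 2 * s + h → False := by
    intro a j hj h2 hr hc
    have hZ : 0 < j * (a - j) := Nat.mul_pos (by omega) (by omega)
    obtain ⟨h3, h4⟩ := hA _ _ hZ hr
    rcases Nat.lt_or_ge j 4 with h5 | h5
    · have hj3' : j = 3 := by omega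
      subst hj3'
      obtain ⟨b, rfl⟩ : ∃ b, a = b + 3 := ⟨a - 3, by omega⟩
      have e1 : b + 3 - 1 = b + 2 := by omega
      have e2 : b + 3 - 3 = b := by omega
      rw [e1, e2] at hr h3
      refine hj3 b hr ?_ hc
      by_contra hcon
      push Not at hcon
      have hb3 : 3 ≤ b := by omega
      interval_cases b <;> omega
    · exact core63 hB h3 h4 h5 h2 hc
  rintro (h1 | ⟨d, k, hk, h1, h2⟩ | ⟨k, l, -, h1, h2⟩ | ⟨M, i, hM, hi, h1, h2⟩ | (⟨r, hr, h1, h2⟩ | ⟨r, i, he, hi, h1, h2⟩) |
    ⟨M, i, hi, h1, h2⟩ | ⟨k, hk, -, h1, h2⟩ | ⟨r, hr, h1, h2⟩ | ⟨h1, h2⟩ | ⟨h1, h2⟩ | ⟨h1, h2⟩ | ⟨h1, h2⟩)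
  · omega
  · exact hpow d k hk h1 h2
  · apply hsq
    refine ⟨k + l, ?_⟩
    have h3 : 2 * s + h + 1 = 2 * s + (h + 1) := by ring
    rw [h3, h2, h1]
    ring
  · -- exterior powers, orthogonal
    have hch := ch3 M i
    have hN : 2 * s + h = (M + 2).choose (i + 2) := by rw [hch, h1, h2]; ring
    have hr := ch2 M i (by omega)
    rw [← h1, ← hN] at hr
    rcases Nat.eq_zero_or_pos i with rfl | hi0
    · simp only [Nat.zero_add, Nat.choose_one_right] at h1
      apply hlin2
      rw [hN, h1, Nat.choose_two_right, ← Nat.mul_div_assoc _ (by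
        have := (Nat.even_mul_pred_self (M + 2)).two_dvd
        exact this)]
      rw [Nat.mul_div_cancel_left _ (by norm_num)]
      have e1 : M + 2 - 1 = M + 1 := by omega
      rw [e1]
      ring
    · refine hcore (M + 2) (i + 2) (by omega) (by omega) ?_ (by rw [hN])
      have e1 : M + 2 - 1 = M + 1 := by omega
      have e2 : M + 2 - (i + 2) = M - i := by omega
      rw [e1, e2]
      exact hr
  · apply hlin0
    obtain ⟨q, rfl⟩ : ∃ q, r = q + 1 := ⟨r - 1, by omega⟩
    rw [h1, h2]
    have e1 : 2 * (q + 1) - 1 = 2 * q + 1 := by omega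
    rw [e1]
    ring
  · -- symplectic
    have c1 := ch3 (2 * r) (i + 2)
    have c2 := ch3 (2 * r) i
    have e4 : i + 2 + 2 = i + 4 := rfl
    have e3 : i + 2 + 1 = i + 3 := rfl
    rw [e4, e3] at c1
    have hN : (2 * r + 2).choose (i + 4) = (2 * s + h) + (2 * r + 2).choose (i + 2) := by omega
    have hr : s * ((2 * r + 3) * (2 * r + 2)) = (2 * s + h) * ((i + 4) * (2 * r - i)) := by
      obtain ⟨M, hM⟩ : ∃ M, M = 2 * r := ⟨_, rfl⟩
      rw [← hM] at h1 h2 hN ⊢
      have hiM : i + 4 ≤ M := by omega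
      have f1 : ((M + 2).choose (i + 4) : ℤ) * (i + 4) = (M + 2).choose (i + 3) * (M - 1 - i) := by
        have := Nat.choose_succ_right_eq (M + 2) (i + 3)
        have h' : M + 2 - (i + 3) = M - 1 - i := by omega
        rw [h'] at this
        have := congrArg (fun x : ℕ => (x : ℤ)) this
        push_cast [Nat.cast_sub (show i ≤ M - 1 by omega), Nat.cast_sub (show 1 ≤ M by omega)] at this
        linear_combination this
      have f2 : ((M + 2).choose (i + 3) : ℤ) * (i + 3) = (M + 2).choose (i + 2) * (M - i) := by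
        have := Nat.choose_succ_right_eq (M + 2) (i + 2)
        have h' : M + 2 - (i + 2) = M - i := by omega
        rw [h'] at this
        have := congrArg (fun x : ℕ => (x : ℤ)) this
        push_cast [Nat.cast_sub (show i ≤ M by omega)] at this
        linear_combination this
      have f3 : (M.choose (i + 3) : ℤ) * ((M + 2) * (M + 1)) = (M + 2).choose (i + 4) * ((i + 4) * (M - 2 - i)) := by
        have := ch2 M (i + 2) (by omega)
        have h' : M - (i + 2) = M - 2 - i := by omega
        rw [h'] at this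
        have := congrArg (fun x : ℕ => (x : ℤ)) this
        push_cast [Nat.cast_sub (show i ≤ M - 2 by omega), Nat.cast_sub (show 2 ≤ M by omega)] at this
        linear_combination this
      have f4 : (M.choose (i + 1) : ℤ) * ((M + 2) * (M + 1)) = (M + 2).choose (i + 2) * ((i + 2) * (M - i)) := by
        have := ch2 M i (by omega)
        have := congrArg (fun x : ℕ => (x : ℤ)) this
        push_cast [Nat.cast_sub (show i ≤ M by omega)] at this
        linear_combination this
      have g1 : (s : ℤ) = M.choose (i + 3) - M.choose (i + 1) := by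
        have := congrArg (fun x : ℕ => (x : ℤ)) h1
        push_cast at this
        linarith
      have g2 : ((2 * s + h : ℕ) : ℤ) = (M + 2).choose (i + 4) - (M + 2).choose (i + 2) := by
        have := congrArg (fun x : ℕ => (x : ℤ)) hN
        push_cast at this ⊢
        linarith
      have g3 : ((s * ((M + 3) * (M + 2)) : ℕ) : ℤ) = (((2 * s + h) * ((i + 4) * (M - i)) : ℕ) : ℤ) := by
        rw [Nat.cast_mul (2 * s + h), g2]
        push_cast [Nat.cast_sub (show i ≤ M by omega)]
        rw [g1]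
        have hp : ((M : ℤ) + 1) ≠ 0 := by positivity
        apply mul_right_cancel₀ hp
        linear_combination ((M : ℤ) + 3) * f3 - ((M : ℤ) + 3) * f4
          + (((M : ℤ) + 3) * (M - 2 - i) - (M - i) * (M + 1)) * f1
          + (((M : ℤ) + 3) * (i + 2) - (M + 1) * (i + 4)) * f2
      exact_mod_cast g3
    have hZ : 0 < (i + 4) * (2 * r - i) := Nat.mul_pos (by omega) (by omega)
    obtain ⟨h3, h4⟩ := hA _ _ hZ hr
    have e5 : 2 * r + 2 + 2 - (i + 4) = 2 * r - i := by omega
    have e6 : (2 * r + 2 + 1) * (2 * r + 2) = (2 * r + 3) * (2 * r + 2) := by ring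
    have e7 : i + 4 - 2 = i + 2 := by omega
    exact core2_63 (c := 2 * r + 2) (j := i + 4) hB (by rw [e5, e6]; exact h3) (by rw [e5]; exact h4) (by omega) (by omega)
      (by rw [e7, hN])
  · -- type `A`
    have hlt : M.choose i ≤ M.choose (i + 2) := by
      rcases Nat.lt_or_ge M (2 * (i + 2)) with h3 | h3
      · have : M = 2 * i + 3 := by omega
        subst this
        have e1 : (2 * i + 3).choose (i + 2) = (2 * i + 3).choose (i + 1) := by
          rw [← Nat.choose_symm_of_eq_add (show 2 * i + 3 = (i + 2) + (i + 1) by ring)]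
        rw [e1]
        exact choose_mono81 (by omega) (by omega)
      · exact choose_mono81 (by omega) h3
    obtain ⟨D, hD⟩ : ∃ D, M.choose (i + 2) = M.choose i + D := ⟨M.choose (i + 2) - M.choose i, by omega⟩
    have hch := ch3 M i
    have hs' : s = M.choose (i + 1) * D := by
      rw [hD] at h1
      nlinarith
    have hN : 2 * s + h = D * (M + 2).choose (i + 2) := by
      rw [hch, hs']
      rw [hD] at h2 ⊢
      nlinarith
    have hD0 : 0 < D := by
      by_contra hcon
      have h3 : D = 0 := by omega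
      rw [h3, mul_zero] at hs'
      omega
    have hr := ch2 M i (by omega)
    have hr' : s * ((M + 2) * (M + 1)) = (2 * s + h) * ((i + 2) * (M - i)) := by
      rw [hN, hs']
      calc M.choose (i + 1) * D * ((M + 2) * (M + 1)) = D * (M.choose (i + 1) * ((M + 2) * (M + 1))) := by ring
        _ = _ := by rw [hr]; ring
    rcases Nat.eq_zero_or_pos i with rfl | hi0
    · -- `i = 0`
      have hM3 : 3 ≤ M := by omega
      have h5 : 2 * M.choose 2 = M * (M - 1) := by
        rw [Nat.choose_two_right, ← Nat.mul_div_assoc _ (Nat.even_mul_pred_self M).two_dvd,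
          Nat.mul_div_cancel_left _ (by norm_num)]
      simp only [Nat.zero_add, Nat.choose_zero_right, Nat.choose_one_right, Nat.sub_zero] at hD hs' hr'
      obtain ⟨h3, h4⟩ := hA _ _ (by omega) hr'
      obtain ⟨q, rfl⟩ : ∃ q, M = q + 1 := ⟨M - 1, by omega⟩
      have e7 : q + 1 - 1 = q := by omega
      rw [e7] at h5
      have hq : 12 ≤ q := by
        by_contra hcon
        push Not at hcon
        have hq2 : 2 ≤ q := by omega
        interval_cases q <;> omega
      have h10 : D ≤ 16 := by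
        rw [hs'] at h4
        have h11 : (q + 1) * D ≤ (q + 1) * 16 := by
          calc (q + 1) * D ≤ 8 * (2 * (q + 1)) := h4
            _ = _ := by ring
        exact Nat.le_of_mul_le_mul_left h11 (by omega)
      nlinarith
    · refine hcore (M + 2) (i + 2) (by omega) (by omega) ?_ ?_
      · have e1 : M + 2 - 1 = M + 1 := by omega
        have e2 : M + 2 - (i + 2) = M - i := by omega
        rw [e1, e2]
        exact hr'
      · rw [hN]
        exact Nat.le_mul_of_pos_left _ hD0
  · -- middle exterior power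
    have e1 := Nat.choose_succ_right_eq (2 * k - 2) (k - 1)
    have e2 : k - 1 + 1 = k := by omega
    have e3 : 2 * k - 2 - (k - 1) = k - 1 := by omega
    rw [e2, e3] at e1
    rw [← h1] at e1
    have h3 : h * (k - 1) = 2 * (s * k) := by
      rw [h2, e1]
      ring
    have h5 : h * (k - 1) ≤ 3 * s * (k - 1) := by
      rw [h3]
      have : 2 * k ≤ 3 * (k - 1) := by omega
      calc 2 * (s * k) = s * (2 * k) := by ring
        _ ≤ s * (3 * (k - 1)) := Nat.mul_le_mul_left _ this
        _ = _ := by ring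
    have h6 := Nat.le_of_mul_le_mul_right h5 (by omega)
    omega
  · obtain ⟨q, rfl⟩ : ∃ q, r = q + 1 := ⟨r - 1, by omega⟩
    have e1 : q + 1 - 1 = q := by omega
    rw [e1] at h1
    have h3 : h ≤ (q + 1) ^ 2 := by omega
    have h5 : (q + 1) * q ≤ 2 * s := by
      rcases h1 with h1 | h1
      · omega
      · rw [h1]; nlinarith
    nlinarith
  · omega
  · omega
  · omega
  · omega

private def ckD (b t : ℕ) : Bool := decide (19 ≤ b) &&
    decide ((t + 3) * (t + 2) * ((b + 3) * (b + 2)) = 2 * ((4 * t ^ 2 + 26 * t + 43) * (3 * b))) &&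
    decide ((b + 1) * (b + 2) * (b + 3) ≤ 6 * (4 * t ^ 2 + 26 * t + 43))

private theorem finD63 : ∀ b < 40, ∀ t < 40, ckD b t = false := by decide +kernel

/-- **Double planes.** The geometric genus of the double covering of the plane branched along a smooth curve of degree `2 e`
is `(e - 1)(e - 2) / 2`. -/
theorem dpl {e s h : ℕ} (he : 4 ≤ e) (hs : 2 * s = (e - 1) * (e - 2)) (hh : h = 3 * e * (e - 1) + 1) : ¬ Exc s h := by
  obtain ⟨t, rfl⟩ : ∃ t, e = t + 4 := ⟨e - 4, by omega⟩
  have e1 : t + 4 - 1 = t + 3 := by omega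
  have e2 : t + 4 - 2 = t + 2 := by omega
  rw [e1, e2] at hs
  rw [e1] at hh
  have hn : 2 * s + h = 4 * t ^ 2 + 26 * t + 43 := by rw [hs, hh]; ring
  have hn8 : 2 * s + h = 8 * s + (6 * t + 19) := by nlinarith
  have h7 : ∀ x : ℤ, x ∣ s → x ∣ (2 * s + h : ℕ) → x ∣ 7 := by
    intro x hx1 hx2
    have e3 : (7 : ℤ) = s * 72 - (6 * t + 11) * ((2 * s + h : ℕ) - 8 * s) := by
      have h1 : (2 * s : ℤ) = (t + 3) * (t + 2) := by exact_mod_cast hs
      have h2 : ((2 * s + h : ℕ) : ℤ) = 8 * s + (6 * t + 19) := by exact_mod_cast hn8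
      rw [h2]
      linear_combination (-36) * h1
    rw [e3]
    refine dvd_sub (Dvd.dvd.mul_right hx1 _) (Dvd.dvd.mul_left (dvd_sub hx2 (Dvd.dvd.mul_left hx1 _)) _)
  have hA7 : ∀ K Z : ℕ, 0 < Z → s * K = (2 * s + h) * Z → 8 * Z < K ∧ s ≤ 7 * Z := by
    intro K Z hZ hr
    rw [hn8] at hr
    have h1 : 8 * Z < K := by
      by_contra hcon
      push Not at hcon
      have h2 : s * K ≤ s * (8 * Z) := Nat.mul_le_mul_left _ hcon
      have h3 : 0 < (6 * t + 19) * Z := Nat.mul_pos (by omega) hZ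
      nlinarith
    refine ⟨h1, ?_⟩
    have h2 : (s : ℤ) ∣ ((7 * Z : ℕ) : ℤ) := by
      refine ⟨72 * Z - (6 * t + 11) * (K - 8 * Z), ?_⟩
      have h3 : (2 * s : ℤ) = (t + 3) * (t + 2) := by exact_mod_cast hs
      have h4 : (s : ℤ) * K = (8 * s + (6 * t + 19)) * Z := by exact_mod_cast hr
      push_cast
      linear_combination (6 * (t : ℤ) + 11) * h4 - 36 * (Z : ℤ) * h3
    exact Nat.le_of_dvd (by omega) (by exact_mod_cast h2)
  have hs3 : 3 ≤ s := by nlinarith
  have hlin : ∀ c : ℕ, c ≤ 2 → 2 * (2 * s + h) = s ^ 2 + 3 * s + c → False := by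
    intro c hc h1
    rw [hn8] at h1
    rcases Nat.lt_or_ge t 4 with h2 | h2
    · interval_cases t
      · have : s = 3 := by omega
        subst this
        omega
      · have : s = 6 := by omega
        subst this
        omega
      · have : s = 10 := by omega
        subst this
        omega
      · have : s = 15 := by omega
        subst this
        omega
    · have h3 : 21 ≤ s := by nlinarith
      have h4 : 21 * s ≤ s ^ 2 := by nlinarith
      nlinarith
  refine not_exc63 (by omega) (by omega) (by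
    rw [hn8]
    nlinarith) (fun K Z hZ hr => by
    obtain ⟨h1, h2⟩ := hA7 K Z hZ hr
    exact ⟨h1, by omega⟩) ?_ ?_ (hlin 2 le_rfl) (hlin 0 (by omega)) ?_
  · -- powers
    intro d k hk h1 h2
    have h3 : d ^ (k - 1) ∣ d ^ k := pow_dvd_pow d (by omega)
    rw [← h1] at h3
    have h4 : ((d ^ (k - 1) : ℕ) : ℤ) ∣ 7 := h7 _ (by exact_mod_cast h2) (by exact_mod_cast h3)
    have h5 : d ^ (k - 1) ∣ 7 := by exact_mod_cast h4
    rcases (Nat.dvd_prime (by norm_num)).1 h5 with h6 | h6
    · rcases Nat.pow_eq_one.1 h6 with h8 | h8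
      · rw [h8, one_pow] at h1
        omega
      · omega
    · have hp : (d ^ (k - 1)).Prime := by
        rw [h6]
        norm_num
      have h8 : k - 1 = 1 := hp.eq_one_of_pow
      have h9 : k = 2 := by omega
      rw [h8, pow_one] at h6
      rw [h9, h6, hn] at h1
      rcases Nat.eq_zero_or_pos t with h10 | h10
      · subst h10
        omega
      · nlinarith
  · -- squares
    rintro ⟨r, hr⟩
    rw [hn] at hr
    have h1 : 2 * t + 6 < r := by
      by_contra hcon
      push Not at hcon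
      have := Nat.mul_le_mul hcon hcon
      nlinarith
    have h2 : r < 2 * t + 7 := by
      by_contra hcon
      push Not at hcon
      have := Nat.mul_le_mul hcon hcon
      nlinarith
    omega
  · -- `j = 3`
    intro b hr hb hc
    obtain ⟨-, h1⟩ := hA7 _ _ (by omega) hr
    have h2 : (b + 1) * (b + 2) * (b + 3) ≤ 6 * (2 * s + h) := by
      rw [← choose_three63]
      omega
    have ht : t ^ 2 ≤ 42 * b := by nlinarith
    have hb40 : b < 40 := by
      by_contra hcon
      push Not at hcon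
      have h3 : t ≤ 2 * b := by
        by_contra hcon2
        push Not at hcon2
        nlinarith
      rw [hn8] at h2
      have h4 : 41 * 42 * (b + 3) ≤ (b + 1) * (b + 2) * (b + 3) :=
        Nat.mul_le_mul_right _ (Nat.mul_le_mul (by omega) (by omega))
      omega
    have ht40 : t < 40 := by
      by_contra hcon
      push Not at hcon
      have : 40 * 40 ≤ t ^ 2 := by nlinarith
      have h5 : (t + 3) * (t + 2) ≤ 42 * b := by omega
      nlinarith
    have h3 := finD63 b hb40 t ht40
    unfold ckD at h3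
    rw [decide_eq_true hb, decide_eq_true (by
      rw [← hn, ← hs]
      calc 2 * s * ((b + 3) * (b + 2)) = 2 * (s * ((b + 3) * (b + 2))) := by ring
        _ = _ := by rw [hr]), decide_eq_true (by rw [← hn]; exact h2)] at h3
    exact absurd h3 (by decide)

/-- **Elliptic surfaces** over the projective line with a section: `p_g = s`, `h = 10 s + 8` in the primitive part. -/
theorem ell {s h : ℕ} (hs : 2 ≤ s) (hh : h = 10 * s + 8) (hsq : ¬ IsSquare (12 * s + 9)) : ¬ Exc s h := by
  have hn : 2 * s + h = 12 * s + 8 := by omega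
  have hA : ∀ K Z : ℕ, 0 < Z → s * K = (2 * s + h) * Z → 12 * Z < K ∧ s ≤ 8 * Z := by
    intro K Z hZ hr
    rw [hn] at hr
    have h1 : 12 * Z < K := by
      by_contra hcon
      push Not at hcon
      have h2 : s * K ≤ s * (12 * Z) := Nat.mul_le_mul_left _ hcon
      nlinarith
    refine ⟨h1, ?_⟩
    obtain ⟨w, rfl⟩ : ∃ w, K = 12 * Z + (w + 1) := ⟨K - 12 * Z - 1, by omega⟩
    nlinarith [Nat.zero_le (s * w)]
  refine not_exc63 hs (by omega) (by omega) (fun K Z hZ hr => by
    obtain ⟨h1, h2⟩ := hA K Z hZ hr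
    exact ⟨by omega, h2⟩) ?_ (by rw [hn]; exact hsq) ?_ ?_ ?_
  · -- powers
    intro d k hk h1 h2
    have h3 : d ^ (k - 1) ∣ d ^ k := pow_dvd_pow d (by omega)
    rw [← h1, hn] at h3
    have h4 : d ^ (k - 1) ∣ 8 := (Nat.dvd_add_right (Dvd.dvd.mul_left h2 12)).1 h3
    have h5 : d ∣ d ^ (k - 1) := dvd_pow_self d (by omega)
    have h6 := Nat.le_of_dvd (by norm_num) h4
    have h7 : 0 < d ^ (k - 1) := Nat.pos_of_dvd_of_pos h4 (by norm_num)
    have h8 := Nat.le_of_dvd h7 h5
    have h9 := Nat.le_of_dvd (by omega) h2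
    have h10 : d ^ k = d * d ^ (k - 1) := by
      rw [← pow_succ']
      congr 1
      omega
    rw [hn, h10] at h1
    have h11 : d * d ^ (k - 1) ≤ 8 * 8 := Nat.mul_le_mul (by omega) h6
    have h12 : s ≤ 4 := by omega
    have h13 : d * d ^ (k - 1) ≤ 4 * 4 := Nat.mul_le_mul (by omega) (by omega)
    omega
  · intro h1
    rw [hn] at h1
    rcases Nat.lt_or_ge s 22 with h2 | h2
    · have : s * s ≤ 21 * s := Nat.mul_le_mul_right _ (by omega)
      nlinarith
    · nlinarith
  · intro h1
    rw [hn] at h1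
    rcases Nat.lt_or_ge s 22 with h2 | h2
    · have : s * s ≤ 21 * s := Nat.mul_le_mul_right _ (by omega)
      nlinarith
    · nlinarith
  · -- `j = 3`
    intro b hr hb hc
    obtain ⟨h3, h1⟩ := hA _ _ (by omega) hr
    have h2 : (b + 1) * (b + 2) * (b + 3) ≤ 6 * (2 * s + h) := by
      rw [← choose_three63]
      omega
    rw [hn] at hr h2
    have hb39 : b < 39 := by
      by_contra hcon
      push Not at hcon
      have h4 : 40 * 41 * (b + 3) ≤ (b + 1) * (b + 2) * (b + 3) :=
        Nat.mul_le_mul_right _ (Nat.mul_le_mul (by omega) (by omega))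
      have h5 : 40 * 41 * 42 ≤ (b + 1) * (b + 2) * (b + 3) :=
        Nat.mul_le_mul (Nat.mul_le_mul (by omega) (by omega)) (by omega)
      rcases Nat.lt_or_ge b 41 with h6 | h6
      · interval_cases b <;> omega
      · have h7 : 42 * 43 * (b + 3) ≤ (b + 1) * (b + 2) * (b + 3) :=
          Nat.mul_le_mul_right _ (Nat.mul_le_mul (by omega) (by omega))
        omega
    interval_cases b <;> omega

end LT
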